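import Mathlib

/-!
# Ultrafilters on `ω` as unions of long strict chains of filters

For an independent family of sets of natural numbers the trace of the topology of `2^ι`
on a countable dense set gives, modulo a maximal ideal avoiding all basic open sets,
a complete ccc algebra; every ultrafilter avoiding that ideal is the union of the
filters generated by its traces on the sets open in the coordinates below `α`.
-/

open Filter Set Cardinal Ordinal

namespace N841.Chain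

/-- A (proper) ideal on `ω`. -/
def IsIdealOn (J : Set (Set ℕ)) : Prop :=
  ∅ ∈ J ∧ Set.univ ∉ J ∧ (∀ A B, A ∈ J → B ∈ J → A ∪ B ∈ J) ∧
    ∀ A B, A ⊆ B → B ∈ J → A ∈ J

/-- A maximal ideal on `ω`: an ideal that is not properly contained in another ideal. -/
def IsMaximalIdealOn (I : Set (Set ℕ)) : Prop :=
  IsIdealOn I ∧ ∀ K, IsIdealOn K → I ⊆ K → K = I

/-- `I` is the union of a strictly increasing sequence, indexed by the ordinals below `κ`,
of ideals on `ω`. -/
def IsStrictChainUnion (κ : Ordinal.{0}) (I : Set (Set ℕ)) : Prop :=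
  ∃ J : Ordinal.{0} → Set (Set ℕ),
    (∀ α < κ, IsIdealOn (J α)) ∧ (∀ α β, α < β → β < κ → J α ⊂ J β) ∧
    (⋃ α ∈ Set.Iio κ, J α) = I

section
variable {ι : Type} (d : ℕ → ι → Prop)

/-- The basic set given by the coordinates in `F` of the point `n`. -/
def Bas (F : Finset ι) (n : ℕ) : Set ℕ := {m | ∀ i ∈ F, (d m i ↔ d n i)}

lemma self_mem_Bas (F : Finset ι) (n : ℕ) : n ∈ Bas d F n := fun _ _ => Iff.rfl

lemma Bas_eq {F : Finset ι} {m n : ℕ} (h : m ∈ Bas d F n) : Bas d F m = Bas d F n := by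
  ext k
  constructor
  · intro hk i hi
    exact (hk i hi).trans (h i hi)
  · intro hk i hi
    exact (hk i hi).trans (h i hi).symm

/-- All basic sets are positive. -/
def Pos (j : Filter ℕ) : Prop := ∀ F n, ∃ᶠ m in j, m ∈ Bas d F n

lemma pos_top : Pos d ⊤ := by
  intro F n h
  have : (∀ m, ¬ m ∈ Bas d F n) := by simpa using h
  exact this n (self_mem_Bas d F n)

lemma exists_minimal : ∃ j : Filter ℕ, Pos d j ∧ ∀ j' ≤ j, Pos d j' → j' = j := by
  have hz : ∀ c ⊆ {x : (Filter ℕ)ᵒᵈ | Pos d (OrderDual.ofDual x)}, IsChain (· ≤ ·) c →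
      ∀ y ∈ c, ∃ ub ∈ {x : (Filter ℕ)ᵒᵈ | Pos d (OrderDual.ofDual x)}, ∀ z ∈ c, z ≤ ub := by
    intro c hc hchain y hy
    let g : Filter ℕ := ⨅ i ∈ c, OrderDual.ofDual i
    refine ⟨OrderDual.toDual g, ?_, ?_⟩
    · have hdir : DirectedOn ((fun i : (Filter ℕ)ᵒᵈ => OrderDual.ofDual i) ⁻¹'o (· ≥ ·)) c := by
        intro a ha b hb
        rcases hchain.total ha hb with h | h
        · exact ⟨b, hb, h, le_refl _⟩
        · exact ⟨a, ha, le_refl _, h⟩
      intro F n hf
      have h2 : {m | ¬ m ∈ Bas d F n} ∈ g := hf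
      rw [Filter.mem_biInf_of_directed hdir ⟨y, hy⟩] at h2
      obtain ⟨i, hi, h3⟩ := h2
      exact hc hi F n h3
    · intro z hz
      exact (iInf₂_le z hz : g ≤ OrderDual.ofDual z)
  obtain ⟨m, -, hm⟩ := zorn_le_nonempty₀ (α := (Filter ℕ)ᵒᵈ)
    {x | Pos d (OrderDual.ofDual x)} hz (OrderDual.toDual ⊤) (pos_top d)
  refine ⟨OrderDual.ofDual m, hm.1, fun j' hj' hp => ?_⟩
  exact le_antisymm hj' (hm.2 (y := OrderDual.toDual j') hp hj')

/-- Maximality property of a minimal filter. -/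
lemma maximality {j : Filter ℕ} (hmin : ∀ j' ≤ j, Pos d j' → j' = j)
    {A : Set ℕ} (hA : ∃ᶠ m in j, m ∈ A) :
    ∃ F n, ∀ᶠ m in j, m ∈ Bas d F n → m ∈ A := by
  by_contra hcon
  push Not at hcon
  have hp : Pos d (j ⊓ 𝓟 Aᶜ) := by
    intro F n hf
    rw [Filter.eventually_inf_principal] at hf
    refine hcon F n ?_
    filter_upwards [hf] with m hm hmem
    exact hm hmem.2 hmem.1
  have heq := hmin _ inf_le_left hp
  have : Aᶜ ∈ j := by
    rw [← heq]
    exact Filter.mem_inf_of_right (Filter.mem_principal_self _)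
  exact hA this

end

section
variable {ι : Type} (d : ℕ → ι → Prop) (r : ι → Ordinal.{0})

/-- Open sets depending on the coordinates of rank below `α`. -/
def OpenBelow (α : Ordinal.{0}) (O : Set ℕ) : Prop :=
  ∀ n ∈ O, ∃ F : Finset ι, (∀ i ∈ F, r i < α) ∧ Bas d F n ⊆ O

/-- The filter of the sets that almost contain a member of `U` open below `α`. -/
def Fil (j : Filter ℕ) (U : Ultrafilter ℕ) (α : Ordinal.{0}) : Set (Set ℕ) :=
  {A | ∃ O, OpenBelow d r α O ∧ O ∈ U ∧ ∀ᶠ m in j, m ∈ O → m ∈ A}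

lemma openBelow_mono {α β : Ordinal.{0}} (h : α ≤ β) {O : Set ℕ} (hO : OpenBelow d r α O) :
    OpenBelow d r β O := by
  intro n hn
  obtain ⟨F, hF, hs⟩ := hO n hn
  exact ⟨F, fun i hi => (hF i hi).trans_le h, hs⟩

lemma openBelow_univ (α : Ordinal.{0}) : OpenBelow d r α Set.univ :=
  fun n _ => ⟨∅, by simp, Set.subset_univ _⟩

open Classical in
lemma openBelow_inter {α : Ordinal.{0}} {O P : Set ℕ} (hO : OpenBelow d r α O)
    (hP : OpenBelow d r α P) : OpenBelow d r α (O ∩ P) := by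
  rintro n ⟨hn, hn'⟩
  obtain ⟨F, hF, hs⟩ := hO n hn
  obtain ⟨G, hG, ht⟩ := hP n hn'
  refine ⟨F ∪ G, ?_, ?_⟩
  · intro i hi
    rcases Finset.mem_union.1 hi with h | h
    · exact hF i h
    · exact hG i h
  · intro m hm
    exact ⟨hs fun i hi => hm i (Finset.mem_union_left _ hi),
      ht fun i hi => hm i (Finset.mem_union_right _ hi)⟩

lemma Fil_mono (j : Filter ℕ) (U : Ultrafilter ℕ) {α β : Ordinal.{0}} (h : α ≤ β) :
    Fil d r j U α ⊆ Fil d r j U β := by
  rintro A ⟨O, hO, hU, hA⟩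
  exact ⟨O, openBelow_mono d r h hO, hU, hA⟩

lemma Fil_subset {j : Filter ℕ} {U : Ultrafilter ℕ} (hU : (U : Filter ℕ) ≤ j) (α : Ordinal.{0}) :
    ∀ A ∈ Fil d r j U α, A ∈ U := by
  rintro A ⟨O, -, hO, hA⟩
  have h1 : ∀ᶠ m in (U : Filter ℕ), m ∈ O → m ∈ A := hU hA
  have h2 : ∀ᶠ m in (U : Filter ℕ), m ∈ O := hO
  filter_upwards [h1, h2] with m hm hm'
  exact hm hm'

/-- The ideals of the chain. -/
lemma isIdealOn_compl_Fil {j : Filter ℕ} {U : Ultrafilter ℕ} (hU : (U : Filter ℕ) ≤ j)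
    (α : Ordinal.{0}) : IsIdealOn {A | Aᶜ ∈ Fil d r j U α} := by
  refine ⟨?_, ?_, ?_, ?_⟩
  · exact ⟨Set.univ, openBelow_univ d r α, Filter.univ_mem, by simp⟩
  · intro h
    have h1 := Fil_subset d r hU α _ h
    rw [Set.compl_univ] at h1
    exact U.empty_notMem h1
  · rintro A B ⟨O, hO, hOU, hA⟩ ⟨P, hP, hPU, hB⟩
    refine ⟨O ∩ P, openBelow_inter d r hO hP, Filter.inter_mem hOU hPU, ?_⟩
    filter_upwards [hA, hB] with m h1 h2 hm
    rw [Set.compl_union]
    exact ⟨h1 hm.1, h2 hm.2⟩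
  · rintro A B hAB ⟨O, hO, hOU, hB⟩
    refine ⟨O, hO, hOU, ?_⟩
    filter_upwards [hB] with m h1 hm hA
    exact h1 hm (hAB hA)

open Classical in
/-- Every member of the ultrafilter lies in one of the filters of the chain. -/
lemma mem_some_Fil {j : Filter ℕ} {U : Ultrafilter ℕ} (hj : Pos d j)
    (hmin : ∀ j' ≤ j, Pos d j' → j' = j) (hU : (U : Filter ℕ) ≤ j)
    {κ : Ordinal.{0}} (hκ : ℵ₀ < κ.cof) (hr : ∀ i, r i < κ) {A : Set ℕ} (hA : A ∈ U) :
    ∃ α < κ, A ∈ Fil d r j U α := by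
  -- the union of all basic sets that are almost contained in `A`
  let O : Set ℕ := {n | ∃ F, ∀ᶠ m in j, m ∈ Bas d F n → m ∈ A}
  have hOn : ∀ n : O, ∃ F, ∀ᶠ m in j, m ∈ Bas d F n.1 → m ∈ A := fun n => n.2
  choose F hF using hOn
  have hsub : ∀ n : O, Bas d (F n) n.1 ⊆ O := by
    intro n m hm
    refine ⟨F n, ?_⟩
    rw [Bas_eq d hm]
    exact hF n
  -- the level
  let f : O → Ordinal.{0} := fun n => (F n).sup (fun i => r i + 1)
  have hlim : Order.IsSuccLimit κ := by
    rw [← Ordinal.one_lt_cof_iff]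
    exact (Cardinal.one_lt_aleph0).trans hκ
  have hf : ∀ n, f n < κ := by
    intro n
    rw [Finset.sup_lt_iff (bot_lt_iff_ne_bot.2 (fun h => by
        rw [h] at hκ; simp at hκ))]
    intro i _
    rw [← Order.succ_eq_add_one]
    exact hlim.succ_lt (hr i)
  have hcard : #O < κ.cof := lt_of_le_of_lt (Cardinal.mk_le_aleph0) hκ
  refine ⟨⨆ n, f n, Ordinal.iSup_lt_of_lt_cof hcard hf, O, ?_, ?_, ?_⟩
  · intro n hn
    refine ⟨F ⟨n, hn⟩, fun i hi => ?_, hsub ⟨n, hn⟩⟩
    have h1 : r i + 1 ≤ f ⟨n, hn⟩ := Finset.le_sup (f := fun i => r i + 1) hi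
    have h2 : f ⟨n, hn⟩ ≤ ⨆ n, f n := Ordinal.le_iSup f ⟨n, hn⟩
    have h3 : r i < r i + 1 := by
      rw [← Order.succ_eq_add_one]; exact Order.lt_succ (r i)
    exact h3.trans_le (h1.trans h2)
  · by_contra hOU
    have hO' : Oᶜ ∈ U := Ultrafilter.compl_mem_iff_notMem.2 hOU
    have hAO : A ∩ Oᶜ ∈ (U : Filter ℕ) := Filter.inter_mem hA hO'
    have hfr : ∃ᶠ m in j, m ∈ A ∩ Oᶜ := by
      intro hev
      have h1 : ∀ᶠ m in (U : Filter ℕ), ¬ m ∈ A ∩ Oᶜ := hU hev
      have h2 : (∅ : Set ℕ) ∈ (U : Filter ℕ) := by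
        filter_upwards [h1, hAO] with m hm hm'
        exact absurd hm' hm
      exact U.empty_notMem h2
    obtain ⟨G, n, hG⟩ := maximality d hmin hfr
    have hnO : n ∈ O := by
      refine ⟨G, ?_⟩
      filter_upwards [hG] with m hm hmem
      exact (hm hmem).1
    have hGO : Bas d G n ⊆ O := by
      intro m hm
      refine ⟨G, ?_⟩
      rw [Bas_eq d hm]
      filter_upwards [hG] with m hm hmem
      exact (hm hmem).1
    obtain ⟨m, hm1, hm2⟩ := ((hj G n).and_eventually hG).exists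
    exact (hm2 hm1).2 (hGO hm1)
  · by_contra hcon
    have hfr : ∃ᶠ m in j, m ∈ O \ A := by
      intro hev
      apply hcon
      filter_upwards [hev] with m hm hmO
      by_contra hmA
      exact hm ⟨hmO, hmA⟩
    obtain ⟨G, n, hG⟩ := maximality d hmin hfr
    obtain ⟨m0, hm1, hm2⟩ := ((hj G n).and_eventually hG).exists
    obtain ⟨F', hF'⟩ := (hm2 hm1).1
    have hev : ∀ᶠ m in j, ¬ m ∈ Bas d (G ∪ F') m0 := by
      filter_upwards [hG, hF'] with m h1 h2 hm
      have hmG : m ∈ Bas d G n := by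
        rw [← Bas_eq d hm1]
        intro i hi
        exact hm i (Finset.mem_union_left _ hi)
      have hmF : m ∈ Bas d F' m0 := fun i hi => hm i (Finset.mem_union_right _ hi)
      exact (h1 hmG).2 (h2 hmF)
    exact hj _ _ hev

open Classical in
/-- Strictness. -/
lemma strict {j : Filter ℕ} {U : Ultrafilter ℕ} (hj : Pos d j)
    (hdense : ∀ (F : Finset ι) (s : ι → Prop), ∃ n, ∀ i ∈ F, (d n i ↔ s i))
    {α β : Ordinal.{0}} (hαβ : α < β) (i0 : ι) (hi0 : r i0 = α) :
    ∃ A, A ∈ Fil d r j U β ∧ A ∉ Fil d r j U α := by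
  -- the set of the coordinate `i0` chosen by `U`
  obtain ⟨e, he⟩ : ∃ e : Prop, {n | d n i0 ↔ e} ∈ (U : Filter ℕ) := by
    rcases U.mem_or_compl_mem {n | d n i0} with h | h
    · exact ⟨True, by simpa using h⟩
    · refine ⟨False, ?_⟩
      simpa [Set.compl_def] using h
  refine ⟨{n | d n i0 ↔ e}, ⟨{n | d n i0 ↔ e}, ?_, he, by simp⟩, ?_⟩
  · intro n hn
    refine ⟨{i0}, ?_, ?_⟩
    · intro i hi
      rw [Finset.mem_singleton.1 hi, hi0]
      exact hαβ
    · intro m hm
      exact (hm i0 (Finset.mem_singleton_self i0)).trans hn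
  · rintro ⟨O, hO, hOU, hev⟩
    have hne : O.Nonempty := by
      rcases Set.eq_empty_or_nonempty O with h | h
      · rw [h] at hOU
        exact absurd hOU U.empty_notMem
      · exact h
    obtain ⟨n, hn⟩ := hne
    obtain ⟨F, hF, hFO⟩ := hO n hn
    have hi0F : i0 ∉ F := fun h => by
      have := hF i0 h
      rw [hi0] at this
      exact lt_irrefl _ this
    obtain ⟨n', hn'⟩ := hdense (insert i0 F) (fun i => if i = i0 then ¬ e else d n i)
    have h1 : d n' i0 ↔ ¬ e := by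
      have := hn' i0 (Finset.mem_insert_self _ _)
      simpa using this
    have h2 : ∀ i ∈ F, (d n' i ↔ d n i) := by
      intro i hi
      have h3 := hn' i (Finset.mem_insert_of_mem hi)
      have hne : i ≠ i0 := fun h => hi0F (h ▸ hi)
      simpa [hne] using h3
    obtain ⟨m, hm1, hm2⟩ := ((hj (insert i0 F) n').and_eventually hev).exists
    have h4 : m ∈ O := by
      apply hFO
      intro i hi
      exact (hm1 i (Finset.mem_insert_of_mem hi)).trans (h2 i hi)
    have h5 : d m i0 ↔ e := hm2 h4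
    have h6 : d m i0 ↔ ¬ e := (hm1 i0 (Finset.mem_insert_self _ _)).trans h1
    tauto

open Classical in
/-- An independent family of `2 ^ ω` subsets of `ω`, in the form of a countable dense set. -/
lemma exists_dense : ∃ d : ℕ → Set ℕ → Prop,
    ∀ (F : Finset (Set ℕ)) (s : Set ℕ → Prop), ∃ n, ∀ i ∈ F, (d n i ↔ s i) := by
  obtain ⟨e, he⟩ := exists_surjective_nat (Finset ℕ × Finset (Finset ℕ))
  refine ⟨fun n A => (e n).1.filter (· ∈ A) ∈ (e n).2, fun F s => ?_⟩
  -- a finite set separating the members of `F`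
  have hsep : ∀ p : Set ℕ × Set ℕ, ∃ n : ℕ, p.1 ≠ p.2 → ¬ (n ∈ p.1 ↔ n ∈ p.2) := by
    intro p
    by_cases h : p.1 = p.2
    · exact ⟨0, fun h' => absurd h h'⟩
    · have : ∃ n, ¬ (n ∈ p.1 ↔ n ∈ p.2) := by
        by_contra hcon
        push Not at hcon
        exact h (Set.ext hcon)
      obtain ⟨n, hn⟩ := this
      exact ⟨n, fun _ => hn⟩
  choose g hg using hsep
  let S : Finset ℕ := (F ×ˢ F).image g
  obtain ⟨n, hn⟩ := he (S, (F.filter s).image (fun A => S.filter (· ∈ A)))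
  refine ⟨n, fun A hA => ?_⟩
  simp only [hn]
  constructor
  · intro h
    obtain ⟨B, hB, hBA⟩ := Finset.mem_image.1 h
    obtain ⟨hBF, hsB⟩ := Finset.mem_filter.1 hB
    have hAB : A = B := by
      by_contra hne
      have h1 := hg (A, B) hne
      have h2 : g (A, B) ∈ S := Finset.mem_image_of_mem _ (Finset.mem_product.2 ⟨hA, hBF⟩)
      apply h1
      have h3 : g (A, B) ∈ S.filter (· ∈ B) ↔ g (A, B) ∈ S.filter (· ∈ A) := by rw [hBA]
      simp only [Finset.mem_filter, h2, true_and] at h3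
      exact h3.symm
    rw [hAB]
    exact hsB
  · intro h
    exact Finset.mem_image_of_mem _ (Finset.mem_filter.2 ⟨hA, h⟩)

/-- There is a maximal ideal on `ω` which, for every ordinal `κ` of uncountable cofinality
and cardinality at most `2 ^ ω`, is the union of a strictly increasing `κ`-sequence of
ideals. -/
theorem main : ∃ I : Set (Set ℕ), IsMaximalIdealOn I ∧
    ∀ κ : Ordinal.{0}, ℵ₀ < κ.cof → κ.card ≤ 𝔠 → IsStrictChainUnion κ I := by
  obtain ⟨d, hd⟩ := exists_dense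
  obtain ⟨j, hj, hmin⟩ := exists_minimal d
  have hne : NeBot j := by
    rw [Filter.neBot_iff]
    intro h
    have h1 := hj ∅ 0
    rw [h] at h1
    exact h1 (by simp)
  let U : Ultrafilter ℕ := Ultrafilter.of j
  have hU : (U : Filter ℕ) ≤ j := Ultrafilter.of_le j
  refine ⟨{A | Aᶜ ∈ U}, ⟨⟨?_, ?_, ?_, ?_⟩, ?_⟩, ?_⟩
  · show (∅ : Set ℕ)ᶜ ∈ U
    rw [Set.compl_empty]
    exact Filter.univ_mem
  · intro h
    have h1 : (Set.univ : Set ℕ)ᶜ ∈ U := h
    rw [Set.compl_univ] at h1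
    exact U.empty_notMem h1
  · intro A B hA hB
    show (A ∪ B)ᶜ ∈ (U : Filter ℕ)
    rw [Set.compl_union]
    exact Filter.inter_mem hA hB
  · intro A B hAB hB
    exact Filter.mem_of_superset (f := (U : Filter ℕ)) hB (Set.compl_subset_compl.2 hAB)
  · intro K hK hIK
    refine Set.Subset.antisymm (fun A hA => ?_) hIK
    by_contra hcon
    have h1 : A ∈ U := by
      have : Aᶜ ∉ U := hcon
      rwa [Ultrafilter.compl_notMem_iff] at this
    have h2 : Aᶜ ∈ K := by
      apply hIK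
      show Aᶜᶜ ∈ U
      rwa [compl_compl]
    have h3 := hK.2.2.1 A Aᶜ hA h2
    rw [Set.union_compl_self] at h3
    exact hK.2.1 h3
  · intro κ hκ hcard
    -- a map onto the ordinals below `κ`
    have h0 : 0 < κ := by
      rcases eq_or_ne κ 0 with h | h
      · rw [h] at hκ; simp at hκ
      · exact bot_lt_iff_ne_bot.2 h
    have hmk : Nonempty (Set.Iio κ ↪ Set ℕ) := by
      have h1 : κ.card ≤ #(Set ℕ) := by simpa [Cardinal.mk_set] using hcard
      have h2 := Cardinal.lift_le.{1}.2 h1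
      rw [← Cardinal.lift_mk_le', Cardinal.mk_Iio_ordinal, Cardinal.lift_uzero]
      exact h2
    obtain ⟨φ⟩ := hmk
    have hnon : Nonempty (Set.Iio κ) := ⟨⟨0, h0⟩⟩
    let ψ : Set ℕ → Set.Iio κ := Function.invFun φ
    have hψ : Function.Surjective ψ := Function.invFun_surjective φ.injective
    let r : Set ℕ → Ordinal.{0} := fun i => (ψ i).1
    have hr : ∀ i, r i < κ := fun i => (ψ i).2
    have hr2 : ∀ α < κ, ∃ i, r i = α := by
      intro α hα
      obtain ⟨i, hi⟩ := hψ ⟨α, hα⟩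
      exact ⟨i, by simp only [r, hi]⟩
    refine ⟨fun α => {A | Aᶜ ∈ Fil d r j U α}, ?_, ?_, ?_⟩
    · intro α _
      exact isIdealOn_compl_Fil d r hU α
    · intro α β hαβ hβ
      refine ⟨fun A hA => Fil_mono d r j U hαβ.le hA, fun hcon => ?_⟩
      obtain ⟨i0, hi0⟩ := hr2 α (hαβ.trans hβ)
      obtain ⟨A, hA1, hA2⟩ := strict d r (U := U) hj hd hαβ i0 hi0
      apply hA2
      have h1 : Aᶜ ∈ {A | Aᶜ ∈ Fil d r j U β} := by
        show Aᶜᶜ ∈ Fil d r j U β
        rwa [compl_compl]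
      have h2 : Aᶜᶜ ∈ Fil d r j U α := hcon h1
      rwa [compl_compl] at h2
    · ext A
      simp only [Set.mem_iUnion, Set.mem_Iio, exists_prop, Set.mem_ofPred_eq]
      constructor
      · rintro ⟨α, _, hA⟩
        exact Fil_subset d r hU α _ hA
      · intro hA
        exact mem_some_Fil d r hj hmin hU hκ hr hA

end

end N841.Chain
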